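import Pool.Agent.Q231.RC.Fin

/-!
# The `T₄`-hull iteration need not terminate for finite sets of triangular matrices

Upper triangular `2 × 2` matrices are points `(x, y, z)`, with diagonal `x`, `y` and upper right
entry `z`.
-/

namespace Pool.Agent.Results.MP_9768d1_an.NoFiniteTermination

open Q231.RC

/-- For the finite set
`seven = {(1,2,0), (4,1,0), (6,4,0), (3,3,1), (5,5,0), (2,6,0), (3,3,0)}` the union of
`K^(0), ..., K^(N)` differs from the `T₄`-convex hull, the union of all `K^(i)`, for every `N`.
This holds for `K^(i+1) = opT4 K^(i)` (`itL`) and for `K^(i+1) = K^(i) ∪ opT4 K^(i)` (`itU`), where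
`opT4 S` consists of the rank-one convex hulls of the `T₄` configurations in `S` and of the
rank-one segments with endpoints in `S`. -/
theorem result : ∃ K : Set Pt, K.Finite ∧
    (∀ N : ℕ, (⋃ i ∈ Set.Iic N, itL K i) ≠ ⋃ i, itL K i) ∧
    (∀ N : ℕ, (⋃ i ∈ Set.Iic N, itU K i) ≠ ⋃ i, itU K i) :=
  ⟨seven, seven_finite,
    fun N => no_termination (itL seven) subset_rfl (fun _ => subset_rfl) closure_itL N,
    fun N => no_termination (itU seven) subset_rfl (fun _ => Set.subset_union_right) closure_itU N⟩

end Pool.Agent.Results.MP_9768d1_an.NoFiniteTermination
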